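import Mathlib

set_option autoImplicit false

namespace Pool.Agent.Results.MP_f0d684_an.Counter

open Polynomial

/-- The closed sector `S(θ)`. -/
def sector (θ : ℝ) : Set ℂ := {z | |Complex.arg z| ≤ θ ∨ z = 0}

/-- The diagonal operator `z ^ k ↦ γ k • z ^ k`. -/
noncomputable def diagOp (γ : ℕ → ℝ) (f : ℝ[X]) : ℝ[X] :=
  ∑ k ∈ f.support, monomial k (γ k * f.coeff k)

/-- All complex zeros of `f` lie in `S`. -/
def ZerosIn (f : ℝ[X]) (S : Set ℂ) : Prop := ∀ z : ℂ, aeval z f = 0 → z ∈ S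

/-- Zero-sector reducing operators. -/
def ZeroSectorReducing (T : ℝ[X] → ℝ[X]) : Prop :=
  ∀ θ : ℝ, 0 < θ → θ < Real.pi / 2 → ∃ γ : ℝ, 0 ≤ γ ∧ γ < θ ∧
    ∀ f : ℝ[X], f ≠ 0 → ZerosIn f (sector θ) → ZerosIn (T f) (sector γ)

theorem coeff_diagOp (γ : ℕ → ℝ) (f : ℝ[X]) (k : ℕ) : (diagOp γ f).coeff k = γ k * f.coeff k := by
  simp only [diagOp, finsetSum_coeff, coeff_monomial, Finset.sum_ite_eq', mem_support_iff]
  split_ifs with h
  · rfl
  · simp [not_not.1 h]

theorem nonreal_root (P : Cubic ℝ) (ha : P.a ≠ 0) (hd : P.discr < 0) :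
    ∃ z : ℂ, aeval z P.toPoly = 0 ∧ z.im ≠ 0 := by
  by_contra hcon
  push Not at hcon
  obtain ⟨x, y, z, h3⟩ := (Cubic.splits_iff_roots_eq_three (φ := algebraMap ℝ ℂ) ha).1
    (IsAlgClosed.splits _)
  have hmem : ∀ w, w ∈ ({x, y, z} : Multiset ℂ) → w.im = 0 := fun w hw => by
    rw [← h3, Cubic.map_roots] at hw
    have := isRoot_of_mem_roots hw
    rw [IsRoot.def, eval_map_algebraMap] at this
    exact hcon w this
  have hx := hmem x (by simp)
  have hy := hmem y (by simp)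
  have hz := hmem z (by simp)
  have hD := Cubic.discr_eq_prod_three_roots ha h3
  have ex : x = (x.re : ℂ) := Complex.ext (by simp) (by simp [hx])
  have ey : y = (y.re : ℂ) := Complex.ext (by simp) (by simp [hy])
  have ez : z = (z.re : ℂ) := Complex.ext (by simp) (by simp [hz])
  rw [ex, ey, ez] at hD
  have : P.discr = (P.a * P.a * (x.re - y.re) * (x.re - z.re) * (y.re - z.re)) ^ 2 := by
    simp only [Complex.coe_algebraMap] at hD
    exact_mod_cast hD
  nlinarith [sq_nonneg (P.a * P.a * (x.re - y.re) * (x.re - z.re) * (y.re - z.re))]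

theorem result : ∃ α p : ℝ, 0 < α ∧ 2 < p ∧
    ¬ ZeroSectorReducing (diagOp fun k => Real.exp (-α * (k : ℝ) ^ p)) := by
  refine ⟨-Real.log (99 / 100), 3, neg_pos.2 (Real.log_neg (by norm_num) (by norm_num)),
    by norm_num, fun H => ?_⟩
  have hγ : ∀ k : ℕ, Real.exp (- -Real.log (99 / 100) * (k : ℝ) ^ (3 : ℝ))
      = (99 / 100 : ℝ) ^ (k ^ 3) := fun k => by
    have : (k : ℝ) ^ (3 : ℝ) = ((k ^ 3 : ℕ) : ℝ) := by
      rw [show (3 : ℝ) = ((3 : ℕ) : ℝ) by norm_num, Real.rpow_natCast]; push_cast; rfl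
    rw [this, neg_neg, mul_comm, Real.exp_nat_mul, Real.exp_log (by norm_num)]
  simp only [hγ] at H
  let f : Cubic ℝ := ⟨1, -3, 3, -1⟩
  let g : Cubic ℝ := ⟨(99 / 100) ^ 27, -3 * (99 / 100) ^ 8, 3 * (99 / 100), -1⟩
  have hfg : diagOp (fun k => (99 / 100 : ℝ) ^ (k ^ 3)) f.toPoly = g.toPoly := by
    ext k
    rw [coeff_diagOp]
    rcases k with _ | _ | _ | _ | k
    · simp [f, g]
    · simp [f, g]; ring
    · simp [f, g]; ring
    · simp [f, g]
    · rw [Cubic.coeff_eq_zero (by omega), Cubic.coeff_eq_zero (by omega), mul_zero]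
  obtain ⟨z, hz, hzim⟩ := nonreal_root g (by simp [g]) (by simp only [g, Cubic.discr]; norm_num)
  have harg : 0 < |Complex.arg z| := by
    rw [abs_pos]
    intro h
    exact hzim (Complex.arg_eq_zero_iff.1 h).2
  obtain ⟨γ, -, hγθ, hT⟩ := H (min |Complex.arg z| 1) (lt_min harg one_pos)
    (lt_of_le_of_lt (min_le_right _ _) (by linarith [Real.pi_gt_three]))
  have hf : ZerosIn f.toPoly (sector (min |Complex.arg z| 1)) := fun w hw => by
    have : (w - 1) ^ 3 = 0 := by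
      rw [← hw]; simp [f, Cubic.toPoly]; ring
    have hw1 : w = 1 := sub_eq_zero.1 (pow_eq_zero_iff (by norm_num) |>.1 this)
    left
    rw [hw1, Complex.arg_one, abs_zero]
    exact (lt_min harg one_pos).le
  have := hT f.toPoly (Cubic.ne_zero_of_a_ne_zero (by simp [f])) hf z (by rw [hfg]; exact hz)
  rcases this with h | h
  · linarith [min_le_left |Complex.arg z| 1]
  · exact hzim (by simp [h])

end Pool.Agent.Results.MP_f0d684_an.Counter
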